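import Pool.Agent.Helper74.UB.Goals4

/-!
# UB-FINE: no first harmful time in the fine case
-/

namespace Pool.Agent.Helper95.UB

open Finset Equiv Helper28.VF Helper74.UB
open scoped Classical

/-- A member of a set of host vertices in a row. -/
theorem nr_pos {V J : Type} [Fintype V] (row : V → ℤ) (O : Finset (V ⊕ J)) (r : ℤ) (v : V)
    (h1 : Sum.inl v ∈ O) (h2 : row v = r) : 1 ≤ nr row O r := by
  unfold nr
  apply Finset.card_pos.mpr
  exact ⟨v, by simp [h1, h2]⟩

/-- Two members of a set of host vertices in a row. -/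
theorem nr_two {V J : Type} [Fintype V] (row : V → ℤ) (O : Finset (V ⊕ J)) (r : ℤ) (v w : V)
    (h1 : Sum.inl v ∈ O) (h2 : row v = r) (h3 : Sum.inl w ∈ O) (h4 : row w = r) (h5 : v ≠ w) :
    2 ≤ nr row O r := by
  unfold nr
  have h : ({v, w} : Finset V) ⊆ univ.filter fun v => Sum.inl v ∈ O ∧ row v = r := by
    intro x hx
    simp only [Finset.mem_insert, Finset.mem_singleton] at hx
    rcases hx with rfl | rfl
    · simp [h1, h2]
    · simp [h3, h4]
  have h' := Finset.card_le_card h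
  rw [Finset.card_pair h5] at h'
  exact h'

/-- Adjacent vertices lie on a common face. -/
theorem fa_of_dart {V D E F : Type} [Fintype V] [Fintype D] [Fintype E] [Fintype F]
    (M : PM D V E F) (d : D) : FA M (M.vt d) (tg M d) := by
  refine ⟨d, ph M d, ?_, rfl, ?_⟩
  · rw [M.fc_iff]
    exact ⟨1, by simp [ph]⟩
  · unfold tg ph
    symm
    rw [M.vt_iff]
    exact ⟨1, by simp⟩

/-- Neighbours in a row lie on a common face of the cone. -/
theorem fa_east {V D E F E' F' : Type} [Fintype V] [Fintype D] [Fintype E] [Fintype F]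
    [Fintype E'] [Fintype F'] (L : Lay V) (M : PM D V E F)
    (dE dW : V → D) (dU dN : V → V → D) (I : F → Prop) (M' : PM (DC M I) (VC V I) E' F')
    (lm : LM L M dE dW dU dN) (cone : IsCone M I M') (v : V) :
    FA M' (Sum.inl v) (Sum.inl (L.e v)) := by
  have h := fa_of_dart M' (Sum.inl (dE v))
  have h1 : M'.vt (Sum.inl (dE v)) = Sum.inl v := by rw [cone.vl, lm.vE]
  have h2 : tg M' (Sum.inl (dE v)) = Sum.inl (L.e v) := by
    unfold tg
    rw [cone.al, cone.vl, lm.aE, lm.vW]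
  rw [h1, h2] at h
  exact h

theorem fa_symm {V D E F : Type} [Fintype V] [Fintype D] [Fintype E] [Fintype F]
    (M : PM D V E F) (u v : V) (h : FA M u v) : FA M v u := by
  obtain ⟨d, e, h1, h2, h3⟩ := h
  exact ⟨e, d, h1.symm, h3, h2⟩

/-- `A` is increasing. -/
theorem mono_le {V D E F : Type} [Fintype V] [Fintype D] [Fintype E] [Fintype F]
    {M : PM D V E F} {c : ℕ} {v₀ : V} {A Q : ℕ → Finset V} (F : Fire M c v₀ A Q) :
    ∀ s t, s ≤ t → A s ⊆ A t ∧ Q s ⊆ Q t := by
  intro s t h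
  induction t, h using Nat.le_induction with
  | base => exact ⟨Subset.rfl, Subset.rfl⟩
  | succ n hn ih => exact ⟨ih.1.trans (F.mono n), ih.2.trans (F.monoQ n)⟩

/-- A lower bound for a sum over rows. -/
theorem sum_rows (b t : ℤ) (g : ℤ → ℤ) (hbt : b ≤ t) (h : ∀ r, b ≤ r → r ≤ t → 1 ≤ g r) :
    t - b + 1 ≤ ∑ r ∈ Finset.Icc b t, g r := by
  have h1 : ∑ r ∈ Finset.Icc b t, (1 : ℤ) ≤ ∑ r ∈ Finset.Icc b t, g r := by
    apply Finset.sum_le_sum
    intro r hr
    rw [Finset.mem_Icc] at hr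
    exact h r hr.1 hr.2
  have h2 : ∑ r ∈ Finset.Icc b t, (1 : ℤ) = t - b + 1 := by
    rw [Finset.sum_const, Int.card_Icc]
    simp only [nsmul_eq_mul, mul_one]
    omega
  omega

/-- A lower bound for a sum over rows with one larger term. -/
theorem sum_rows2 (b t y : ℤ) (g : ℤ → ℤ) (hby : b ≤ y) (hyt : y ≤ t)
    (h : ∀ r, b ≤ r → r ≤ t → 1 ≤ g r) (hy : 2 ≤ g y) :
    t - b + 2 ≤ ∑ r ∈ Finset.Icc b t, g r := by
  have h1 : ∑ r ∈ Finset.Icc b t, (1 + if r = y then (1 : ℤ) else 0) ≤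
      ∑ r ∈ Finset.Icc b t, g r := by
    apply Finset.sum_le_sum
    intro r hr
    rw [Finset.mem_Icc] at hr
    by_cases hry : r = y
    · subst hry; simp; omega
    · simp only [hry, if_false, add_zero]
      exact h r hr.1 hr.2
  have h2 : ∑ r ∈ Finset.Icc b t, (1 + if r = y then (1 : ℤ) else 0) = t - b + 2 := by
    rw [Finset.sum_add_distrib, Finset.sum_const, Int.card_Icc, Finset.sum_ite_eq',
      if_pos (Finset.mem_Icc.mpr ⟨hby, hyt⟩)]
    simp only [nsmul_eq_mul, mul_one]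
    omega
  omega

/-- The rows of the flat part, with integer arguments. -/
theorem flat_row {V : Type} {L : Lay V} {N h : ℕ} {f : ℤ → ZMod N → V} (F : Flat L N h f)
    (r : ℤ) (i : ZMod N) (h1 : 0 ≤ r) (h2 : r ≤ h) : L.row (f r i) = r := by
  lift r to ℕ using h1
  exact F.row r i (by omega) (by omega)

/-- Steps to the east in the flat part, with integer arguments. -/
theorem flat_e {V : Type} {L : Lay V} {N h : ℕ} {f : ℤ → ZMod N → V} (F : Flat L N h f)
    (r : ℤ) (i : ZMod N) (h1 : 0 ≤ r) (h2 : r ≤ h) : L.e (f r i) = f r (i + 1) := by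
  lift r to ℕ using h1
  exact F.e r i (by omega) (by omega)

/-- **FINE.** -/
theorem fine (hNum : StmtNum) (hRowsC : StmtRowsC) (hBonus : StmtBonus) (hCorn : StmtCorn)
    (hBaseF : StmtBaseF) (hTpF : StmtTpF) (hPart : StmtPart) : StmtFine := by
  intro K h V D E F E' F' _ _ _ _ _ _ L f M dE dW dU dN I M' y0 y1 c v₀ A Q X T R₁ R₂ sit s hs
    hHarm hb2 ht2 hH
  obtain ⟨C, hC, hh1, hh2, hhf⟩ := hH
  have base := sit.base
  have fire := base.fire
  have hmono := mono_le fire
  -- the rows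
  obtain ⟨t, ht⟩ : ∃ t, t = tp L.row y0 (A s) := ⟨_, rfl⟩
  obtain ⟨b, hb⟩ : ∃ b, b = bt L.row y1 (A s) := ⟨_, rfl⟩
  have tpf0 := hTpF V {q : F // I q} L.row y0 (A s)
  have tpf1 := hTpF V {q : F // I q} L.row y1 (A s)
  have hbase := hBaseF K h V D E F E' F' L f M dE dW dU dN I M' y0 y1 c v₀ A Q base
  have hty0 : y0 ≤ t := by rw [ht]; exact tpf0.1.1
  have hby1 : b ≤ y1 := by rw [hb]; exact tpf1.2.1.1
  have hlow : ∀ v, Sum.inl v ∈ A s → b ≤ L.row v := by rw [hb]; exact tpf1.2.1.2.1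
  rw [← hb] at hb2
  rw [← ht] at ht2
  have hq1 : R₁.p s 0 ∈ Q s := hC.sub hh1
  have hq2 : R₂.p s 0 ∈ Q s := hC.sub hh2
  have hE := fire.card s
  -- s ≥ 1 in case (B)
  have hI : (∀ q, ¬ I q) ∨ 1 ≤ s := by
    by_cases hI : ∃ q, I q
    · right
      by_contra hs0
      have hs0' : s = 0 := by omega
      subst hs0'
      have hc := hCorn K h V D E F E' F' L f M dE dW dU dN I M' y0 y1 c v₀ A Q X T R₁ R₂ sit hI hs
      exact hc.1 ⟨hq1, hq2⟩
    · left
      push Not at hI
      exact hI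
  obtain ⟨v1, hv1, hv1'⟩ := (hbase.2.2.2.2.2.2.2.2 s hI).1
  have hbt : b ≤ t := by
    rw [← ht] at hv1'
    rw [← hv1']
    exact hlow v1 hv1
  -- the heads
  have hflat := base.host.flat
  obtain ⟨i1, hi1, _⟩ := (sit.e1 s hs hq1 (by rw [← ht]; omega)).2
  obtain ⟨i2, hi2, _⟩ := (sit.e2 s hs hq2 (by rw [← hb]; omega)).2
  rw [← ht] at hi1
  rw [← hb] at hi2
  rw [hi1] at hh1
  rw [hi2] at hh2
  have hr1 : L.row (f (t + 1) i1) = t + 1 := flat_row hflat (t + 1) i1 (by omega) (by omega)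
  have hr2 : L.row (f (b - 1) i2) = b - 1 := flat_row hflat (b - 1) i2 (by omega) (by omega)
  have hnt : 1 ≤ nr L.row C (t + 1) := nr_pos _ _ _ _ hh1 hr1
  have hnb : 1 ≤ nr L.row C (b - 1) := nr_pos _ _ _ _ hh2 hr2
  have hrows : ∀ r, b ≤ r → r ≤ t → (1 : ℤ) ≤ (nr L.row C r : ℤ) := by
    intro r h1 h2
    have := hRowsC K h V D E F E' F' L f M dE dW dU dN I M' y0 y1 c v₀ A Q base s C hC
      (f (t + 1) i1) (f (b - 1) i2) hh1 hh2 r (by omega) (by omega)
    exact_mod_cast this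
  have hnum := hNum K h V D E F E' F' L f M dE dW dU dN I M' y0 y1 c v₀ A Q X T R₁ R₂ sit s C hs
    hHarm hC (by rw [hi1]; exact hh1) (by rw [hi2]; exact hh2) hhf hI t b ht hb hb2 ht2
  obtain ⟨hn1, hn2, hn3⟩ := hnum
  have hsum := sum_rows b t (fun r => (nr L.row C r : ℤ)) hbt hrows
  have hCE : C.card ≤ (Q s).card := Finset.card_le_card hC.sub
  rcases base.start with ⟨hy, -, -, hc⟩ | ⟨hy, hev, ⟨j0, hj0⟩, -, hc, hc2⟩
  · omega
  have hIq : ∃ q, I q := ⟨_, (hj0 _).mpr rfl⟩
  have hs1 : 1 ≤ s := by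
    rcases hI with hI | hI
    · exact absurd (hIq) (by push Not; exact hI)
    · exact hI
  rcases Nat.lt_or_ge c 2 with hc' | hc'
  · omega
  have hceq : c = 2 := by omega
  have hQ0 := hc2 hceq
  have hcorn := hCorn K h V D E F E' F' L f M dE dW dU dN I M' y0 y1 c v₀ A Q X T R₁ R₂ sit hIq
    (by omega)
  have hQ0s := (hmono 0 s (by omega)).2
  -- two adjacent vertices of `Q 0` in a row
  have two : ∀ y : ℤ, 0 ≤ y → y ≤ h → ∀ j, Sum.inl (f y j) ∈ Q 0 → Sum.inl (f y (j + 1)) ∈ Q 0 →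
      (2 ≤ nr L.row C y) ∨ C.card + 2 ≤ (Q s).card := by
    intro y hy0 hyh j hj1 hj2
    have he : L.e (f y j) = f y (j + 1) := flat_e hflat y j hy0 hyh
    have hne : f y j ≠ f y (j + 1) := by
      rw [← he]; exact (base.host.ax.e1 _).symm
    have hfa := fa_east L M dE dW dU dN I M' base.lm base.cone (f y j)
    rw [he] at hfa
    by_cases hm : Sum.inl (f y j) ∈ C
    · left
      have hm2 : Sum.inl (f y (j + 1)) ∈ C := hC.closed _ hm _ (hQ0s hj2) hfa
      exact nr_two _ _ _ _ _ hm (flat_row hflat _ _ hy0 hyh) hm2 (flat_row hflat _ _ hy0 hyh) hne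
    · right
      have hm2 : Sum.inl (f y (j + 1)) ∉ C := by
        intro hm2
        exact hm (hC.closed _ hm2 _ (hQ0s hj1) (fa_symm _ _ _ hfa))
      have hsub : insert (Sum.inl (f y j)) (insert (Sum.inl (f y (j + 1))) C) ⊆ Q s := by
        intro x hx
        simp only [Finset.mem_insert] at hx
        rcases hx with rfl | rfl | hx
        · exact hQ0s hj1
        · exact hQ0s hj2
        · exact hC.sub hx
      have hcard := Finset.card_le_card hsub
      rw [Finset.card_insert_of_notMem, Finset.card_insert_of_notMem hm2] at hcard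
      · omega
      · simp only [Finset.mem_insert, not_or]
        refine ⟨?_, hm⟩
        intro h'
        exact hne (Sum.inl_injective h')
  have hrng := base.rng
  by_cases he1 : R₁.p 0 0 ∈ Q 0
  · obtain ⟨hc1, j, hj1, hj2⟩ := hcorn.2.1 he1
    have hb1 : b ≤ y0 := by
      have := (((hTpF V {q : F // I q} L.row y1 (A 1)).2.2.1 (A s) (hmono 1 s hs1).1).2)
      rw [← hb] at this
      omega
    rcases two y1 (by omega) hrng.2 j hj1 hj2 with htwo | htwo
    · rcases eq_or_lt_of_le hty0 with hty | hty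
      · have : t + 1 = y1 := by omega
        rw [← this] at htwo
        omega
      · have hs2 := sum_rows2 b t y1 (fun r => (nr L.row C r : ℤ)) (by omega) (by omega) hrows
          (by exact_mod_cast htwo)
        have hev1 : 1 ≤ ((Finset.Ico b t).filter fun y => Even y).card := by
          apply Finset.card_pos.mpr
          exact ⟨y0, by simp only [Finset.mem_filter, Finset.mem_Ico]; exact ⟨⟨hb1, hty⟩, hev⟩⟩
        omega
    · omega
  by_cases he2 : R₂.p 0 0 ∈ Q 0
  · obtain ⟨hc1, j, hj1, hj2⟩ := hcorn.2.2 he2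
    have ht1 : y1 ≤ t := by
      have := (((hTpF V {q : F // I q} L.row y0 (A 1)).2.2.1 (A s) (hmono 1 s hs1).1).1)
      rw [← ht] at this
      omega
    rcases two y0 hrng.1 (by omega) j hj1 hj2 with htwo | htwo
    · rcases eq_or_lt_of_le hby1 with hty | hty
      · have : b - 1 = y0 := by omega
        rw [← this] at htwo
        omega
      · have hs2 := sum_rows2 b t y0 (fun r => (nr L.row C r : ℤ)) (by omega) (by omega) hrows
          (by exact_mod_cast htwo)
        have hev1 : 1 ≤ ((Finset.Ico b t).filter fun y => Even y).card := by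
          apply Finset.card_pos.mpr
          exact ⟨y0, by simp only [Finset.mem_filter, Finset.mem_Ico]; exact ⟨⟨by omega, by omega⟩, hev⟩⟩
        omega
    · omega
  -- no event at time 0
  obtain ⟨u, hu⟩ := hQ0
  obtain ⟨O₀, hO₀, huO⟩ := (hPart _ _ _ _ M').1 (Q s) u (hQ0s hu)
  have hbon := hBonus K h V D E F E' F' L f M dE dW dU dN I M' y0 y1 c v₀ A Q base hIq s O₀ hO₀
    ⟨u, hu, huO⟩
  have hn2' := hn2 hs1 he1 he2 ⟨O₀, hO₀, hbon⟩
  omega

end Pool.Agent.Helper95.UB
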