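import Pool.Agent.Helper95.UB.Fine

/-!
# UB-CRUDE: no first harmful time in the crude case
-/

namespace Pool.Agent.Helper95.UB

open Finset Equiv Helper28.VF Helper74.UB
open scoped Classical

/-- The strip of a dart is unique. -/
theorem strip_unique {V D E F : Type} [Fintype V] [Fintype D] [Fintype E] [Fintype F]
    (M : PM D V E F) (row : V → ℤ) (d : D) (y y' : ℤ) (h : InStrip M row d y)
    (h' : InStrip M row d y') : y = y' := by
  obtain ⟨h1, ⟨e, he, he'⟩, -⟩ := h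
  obtain ⟨k1, ⟨g, hg, hg'⟩, -⟩ := h'
  have a := k1 e he
  have b := h1 g hg
  omega

/-- Row numbers add up to at most the cardinality. -/
theorem sum_nr_le {V J : Type} [Fintype V] (row : V → ℤ) (O : Finset (V ⊕ J)) (S : Finset ℤ) :
    ∑ r ∈ S, nr row O r ≤ O.card := by
  have h1 : ((univ.filter fun v => Sum.inl v ∈ O ∧ row v ∈ S) : Finset V).card ≤ O.card := by
    apply Finset.card_le_card_of_injOn (fun v => Sum.inl v)
    · intro v hv
      have hv' : v ∈ univ.filter fun v => Sum.inl v ∈ O ∧ row v ∈ S := hv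
      rw [Finset.mem_filter] at hv'
      exact hv'.2.1
    · intro v _ w _ h
      exact Sum.inl_injective h
  have h2 : ((univ.filter fun v => Sum.inl v ∈ O ∧ row v ∈ S) : Finset V).card =
      ∑ r ∈ S, nr row O r := by
    rw [Finset.card_eq_sum_card_fiberwise (f := row) (t := S)]
    · apply Finset.sum_congr rfl
      intro r hr
      unfold nr
      congr 1
      ext v
      simp only [Finset.mem_filter, Finset.mem_univ, true_and]
      constructor
      · rintro ⟨⟨a, b⟩, c⟩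
        exact ⟨a, c⟩
      · rintro ⟨a, c⟩
        exact ⟨⟨a, by rw [c]; exact hr⟩, c⟩
    · intro v hv
      have hv' : v ∈ univ.filter fun v => Sum.inl v ∈ O ∧ row v ∈ S := hv
      rw [Finset.mem_filter] at hv'
      exact hv'.2.2
  omega

/-- The number of even integers in an interval. -/
theorem sum_even (b : ℤ) (n : ℕ) :
    2 * ∑ y ∈ Finset.Ico b (b + n), (1 + if Even y then (1 : ℤ) else 0) =
      3 * (n : ℤ) + (if Even b then ((n : ℤ) % 2) else -((n : ℤ) % 2)) := by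
  induction n with
  | zero => simp
  | succ n ih =>
    have h : Finset.Ico b (b + (n + 1 : ℕ)) = insert (b + n) (Finset.Ico b (b + n)) := by
      ext x
      simp only [Finset.mem_Ico, Finset.mem_insert]
      omega
    rw [h, Finset.sum_insert (by simp), mul_add, ih]
    simp only [Int.even_iff]
    split_ifs <;> omega

/-- The strips together. -/
theorem collect {V D J : Type} [Fintype V] (row : V → ℤ) (st : D → ℤ → Prop)
    (hst : ∀ d y y', st d y → st d y' → y = y') (NB : Finset (D ⊕ J)) (b : ℤ) (n : ℕ)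
    (good : V → V → Prop)
    (h : ∀ y : ℤ, b ≤ y → y < b + n → ∃ (S : Finset D) (P : Finset (V × V)),
      (∀ d ∈ S, Sum.inl d ∈ NB ∧ st d y) ∧
      (∀ p ∈ P, good p.1 p.2 ∧ row p.1 = y ∧ row p.2 = y + 1) ∧ P.card ≤ 1 ∧
      (¬ Even y → P = ∅) ∧ 1 + (if Even y then 1 else 0) ≤ S.card + P.card) :
    ∃ P : Finset (V × V), (∀ p ∈ P, good p.1 p.2) ∧
      (∀ p ∈ P, ∀ q ∈ P, p ≠ q → p.1 ≠ q.1 ∧ p.1 ≠ q.2 ∧ p.2 ≠ q.1 ∧ p.2 ≠ q.2) ∧
      3 * (n : ℤ) - 1 ≤ 2 * (NB.card + P.card) := by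
  choose! S P h1 h2 h3 h4 h5 using h
  have hP : ((Finset.Ico b (b + n)).biUnion P).card = ∑ y ∈ Finset.Ico b (b + n), (P y).card := by
    apply Finset.card_biUnion
    intro y hy y' hy' hne
    rw [Finset.mem_coe, Finset.mem_Ico] at hy hy'
    unfold Function.onFun
    rw [Finset.disjoint_left]
    intro p hp hp'
    have a := (h2 y hy.1 hy.2 p hp).2.1
    have b := (h2 y' hy'.1 hy'.2 p hp').2.1
    omega
  have hS : ((Finset.Ico b (b + n)).biUnion S).card = ∑ y ∈ Finset.Ico b (b + n), (S y).card := by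
    apply Finset.card_biUnion
    intro y hy y' hy' hne
    rw [Finset.mem_coe, Finset.mem_Ico] at hy hy'
    unfold Function.onFun
    rw [Finset.disjoint_left]
    intro d hp hp'
    exact hne (hst d _ _ (h1 y hy.1 hy.2 d hp).2 (h1 y' hy'.1 hy'.2 d hp').2)
  have hS2 : ((Finset.Ico b (b + n)).biUnion S).card ≤ NB.card := by
    apply Finset.card_le_card_of_injOn (fun d => Sum.inl d)
    · intro d hd
      have hd' : d ∈ (Finset.Ico b (b + n)).biUnion S := hd
      rw [Finset.mem_biUnion] at hd'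
      obtain ⟨y, hy, hyd⟩ := hd'
      rw [Finset.mem_Ico] at hy
      exact (h1 y hy.1 hy.2 d hyd).1
    · intro v _ w _ h
      exact Sum.inl_injective h
  refine ⟨(Finset.Ico b (b + n)).biUnion P, ?_, ?_, ?_⟩
  · intro p hp
    rw [Finset.mem_biUnion] at hp
    obtain ⟨y, hy, hyd⟩ := hp
    rw [Finset.mem_Ico] at hy
    exact (h2 y hy.1 hy.2 p hyd).1
  · intro p hp q hq hne
    rw [Finset.mem_biUnion] at hp hq
    obtain ⟨y, hy, hyp⟩ := hp
    obtain ⟨z, hz, hzq⟩ := hq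
    rw [Finset.mem_Ico] at hy hz
    have hyz : y ≠ z := by
      rintro rfl
      exact hne (Finset.card_le_one.mp (h3 y hy.1 hy.2) p hyp q hzq)
    have ey : Even y := by
      by_contra hc
      rw [h4 y hy.1 hy.2 hc] at hyp
      simp at hyp
    have ez : Even z := by
      by_contra hc
      rw [h4 z hz.1 hz.2 hc] at hzq
      simp at hzq
    rw [Int.even_iff] at ey ez
    have a := (h2 y hy.1 hy.2 p hyp).2
    have b := (h2 z hz.1 hz.2 q hzq).2
    refine ⟨?_, ?_, ?_, ?_⟩ <;> intro hc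
    · rw [hc] at a; omega
    · rw [hc] at a; omega
    · rw [hc] at a; omega
    · rw [hc] at a; omega
  · have hsum : ∑ y ∈ Finset.Ico b (b + n), (1 + if Even y then (1 : ℤ) else 0) ≤
        ∑ y ∈ Finset.Ico b (b + n), (((S y).card : ℤ) + ((P y).card : ℤ)) := by
      apply Finset.sum_le_sum
      intro y hy
      rw [Finset.mem_Ico] at hy
      have := h5 y hy.1 hy.2
      split_ifs at this ⊢ <;> omega
    rw [show ∑ y ∈ Finset.Ico b (b + n), (((S y).card : ℤ) + ((P y).card : ℤ)) =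
      ∑ y ∈ Finset.Ico b (b + n), ((S y).card : ℤ) + ∑ y ∈ Finset.Ico b (b + n), ((P y).card : ℤ)
      from Finset.sum_add_distrib] at hsum
    have he := sum_even b n
    have hP' : (((Finset.Ico b (b + n)).biUnion P).card : ℤ) =
        ∑ y ∈ Finset.Ico b (b + n), ((P y).card : ℤ) := by rw [hP]; push_cast; rfl
    have hS' : (((Finset.Ico b (b + n)).biUnion S).card : ℤ) =
        ∑ y ∈ Finset.Ico b (b + n), ((S y).card : ℤ) := by rw [hS]; push_cast; rfl
    have hlow : 3 * (n : ℤ) - 1 ≤ 3 * (n : ℤ) +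
        (if Even b then ((n : ℤ) % 2) else -((n : ℤ) % 2)) := by
      split_ifs <;> omega
    omega

theorem arith1 (K h s : ℕ) (y0 y1 t b : ℤ) (hy0 : 16 * (K : ℤ) + 60 ≤ y0)
    (hy1 : y1 + 16 * K + 60 ≤ h) (hor : b ≤ 1 ∨ (h : ℤ) ≤ t + 1) (hyy : y0 ≤ y1)
    (h1 : t ≤ y0 + s) (h2 : y1 - s ≤ b) : 16 * (K : ℤ) + 59 ≤ s := by
  omega

theorem arith2 (K h s p0 ps ev : ℕ) (y0 t tf t0 : ℤ) (h1 : s + ps ≤ p0 + ev)
    (h2 : (p0 : ℤ) = 2 * K + 2 + h - t0) (h3 : t < h → (ps : ℤ) = 2 * K + 2 + h - t)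
    (htf : tf = min t h) (h0 : t0 = y0) : (s : ℤ) ≤ tf - y0 + 2 * K + 2 + ev := by
  by_cases hc : t < h
  · have := h3 hc
    omega
  · omega

theorem arith3 (K s p0 ps ev : ℕ) (y1 b bf b0 : ℤ) (h1 : s + ps ≤ p0 + ev)
    (h2 : (p0 : ℤ) = 2 * K + 2 + b0) (h3 : 0 < b → (ps : ℤ) = 2 * K + 2 + b)
    (hbf : bf = max b 0) (h0 : b0 = y1) : (s : ℤ) ≤ y1 - bf + 2 * K + 2 + ev := by
  by_cases hc : 0 < b
  · have := h3 hc
    omega
  · omega

theorem arith4 (K s c n nbC P bdC beC C E ev1 ev2 : ℕ) (y0 y1 tf bf : ℤ)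
    (hc : c ≤ 2) (hyy : y1 ≤ y0 + 1) (hlarge : 16 * (K : ℤ) + 59 ≤ s) (hE : E ≤ c + s + 1)
    (hCcard : tf - bf + 1 ≤ (C : ℤ)) (hCE : C ≤ E) (hn : (n : ℤ) = max (tf - bf) 0)
    (hH : bf ≤ tf + 1)
    (hP3 : 3 * (n : ℤ) - 1 ≤ 2 * (nbC + P)) (hWC : bdC + P ≤ 4 + 3 * C)
    (hbd : beC + nbC = bdC) (htot : 2 * (ev1 + ev2) + 3 * C ≤ 3 * E + beC)
    (htime1 : (s : ℤ) ≤ tf - y0 + 2 * K + 2 + ev1) (htime2 : (s : ℤ) ≤ y1 - bf + 2 * K + 2 + ev2) :
    False := by
  omega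

theorem be_add_nb {V D E F : Type} [Fintype V] [Fintype D] [Fintype E] [Fintype F]
    (M : PM D V E F) (O A : Finset V) : be M O A + (nb M O A).card = (bd M O).card := by
  unfold be nb
  exact Finset.card_filter_add_card_filter_not _

/-- **CRUDE.** -/
theorem crude (hIntC : StmtIntC) (hRowsC : StmtRowsC) (hTot : StmtTot) (hTime : StmtTime)
    (hW : StmtW) (hBaseF : StmtBaseF) (hTpF : StmtTpF) : StmtCrude := by
  intro K h V D E F E' F' _ _ _ _ _ _ L f M dE dW dU dN I M' y0 y1 c v₀ A Q X T R₁ R₂ sit hy0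
    hy1 s hs hHarm hor hH
  obtain ⟨C, hC, hh1, hh2, hhf⟩ := hH
  have base := sit.base
  have fire := base.fire
  obtain ⟨t, ht⟩ : ∃ t, t = tp L.row y0 (A s) := ⟨_, rfl⟩
  obtain ⟨b, hb⟩ : ∃ b, b = bt L.row y1 (A s) := ⟨_, rfl⟩
  have tpf0 := hTpF V {q : F // I q} L.row y0 (A s)
  have tpf1 := hTpF V {q : F // I q} L.row y1 (A s)
  have hbase := hBaseF K h V D E F E' F' L f M dE dW dU dN I M' y0 y1 c v₀ A Q base
  have hty0 : y0 ≤ t := by rw [ht]; exact tpf0.1.1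
  have hby1 : b ≤ y1 := by rw [hb]; exact tpf1.2.1.1
  rw [← hb, ← ht] at hor
  have hrng := base.rng
  have hyy : y0 ≤ y1 ∧ y1 ≤ y0 + 1 ∧ c ≤ 2 := by
    rcases base.start with ⟨hy, -, -, hc⟩ | ⟨hy, -, -, -, hc, -⟩
    · omega
    · omega
  -- the speed of the fire
  have hspeed : ∀ r : ℕ, tp L.row y0 (A r) ≤ y0 + r ∧ y1 - r ≤ bt L.row y1 (A r) := by
    intro r
    induction r with
    | zero =>
      have := hbase.2.2.2.2.2.1
      omega
    | succ r ih =>
      have := hbase.2.2.2.2.2.2.1 r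
      push_cast
      omega
  have hsp := hspeed s
  rw [← ht, ← hb] at hsp
  have hlarge : 16 * (K : ℤ) + 59 ≤ s := arith1 K h s y0 y1 t b hy0 hy1 hor hyy.1 hsp.1 hsp.2
  have hQ1 := hC.sub hh1
  have hQ2 := hC.sub hh2
  have hE := fire.card s
  -- the interval
  obtain ⟨tf, htf⟩ : ∃ tf, tf = min t h := ⟨_, rfl⟩
  obtain ⟨bf, hbf⟩ : ∃ bf, bf = max b 0 := ⟨_, rfl⟩
  have hH : bf ≤ tf + 1 := by omega
  -- the heads
  obtain ⟨a1, ha1, ha1'⟩ := sit.h1 s hs hQ1
  obtain ⟨a2, ha2, ha2'⟩ := sit.h2 s hs hQ2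
  rw [← ht] at ha1'
  rw [← hb] at ha2'
  rw [ha1] at hh1
  rw [ha2] at hh2
  have hrows : ∀ r, bf ≤ r → r ≤ tf → (1 : ℤ) ≤ (nr L.row C r : ℤ) := by
    intro r h1 h2
    have := hRowsC K h V D E F E' F' L f M dE dW dU dN I M' y0 y1 c v₀ A Q base s C hC
      a1 a2 hh1 hh2 r (by omega) (by omega)
    exact_mod_cast this
  have hCcard : tf - bf + 1 ≤ (C.card : ℤ) := by
    by_cases hle : bf ≤ tf
    · have h1 := sum_rows bf tf (fun r => (nr L.row C r : ℤ)) hle hrows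
      have h2 := sum_nr_le L.row C (Finset.Icc bf tf)
      have h3 : ∑ r ∈ Finset.Icc bf tf, (nr L.row C r : ℤ) ≤ (C.card : ℤ) := by exact_mod_cast h2
      omega
    · omega
  have hCE : C.card ≤ (Q s).card := Finset.card_le_card hC.sub
  -- pairs and boundary darts
  obtain ⟨n, hn⟩ : ∃ n : ℕ, (n : ℤ) = max (tf - bf) 0 := ⟨(max (tf - bf) 0).toNat, by omega⟩
  obtain ⟨P, hP1, hP2, hP3⟩ := collect L.row (fun d y => InStrip M L.row d y)
    (fun d y y' h1 h2 => strip_unique M L.row d y y' h1 h2) (nb M' C (A s)) bf n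
    (fun a b => Sum.inl a ∈ C ∧ Sum.inl b ∈ C ∧ SqE M' (Sum.inl a) (Sum.inl b)) (by
      intro y hy1 hy2
      obtain ⟨S, P, g1, g2, g3, g4, g5⟩ := hIntC K h V D E F E' F' L f M dE dW dU dN I M' y0 y1 c
        v₀ A Q X T R₁ R₂ sit s C hs hC (by rw [ha1]; exact hh1) (by rw [ha2]; exact hh2) hhf y
        (by rw [← hb, ← hbf]; exact hy1) (by rw [← ht, ← htf]; omega)
      refine ⟨S, P, g1, ?_, g3, g4, g5⟩
      intro p hp
      obtain ⟨q1, q2, q3, q4, q5⟩ := g2 p hp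
      exact ⟨⟨q1, q2, q3⟩, q4, q5⟩)
  have hsmall := hbase.2.2.1
  have hlink : ∀ O, O ⊆ Q s → ∀ v ∈ O, link M' v ≤ 7 := by
    intro O hO v hv
    obtain ⟨w, rfl⟩ := hbase.2.1 s v (hO hv)
    exact hsmall.2 w
  have hWC := hW _ _ _ _ M' hsmall.1 C (P.image fun p => (Sum.inl p.1, Sum.inl p.2))
    (hlink C hC.sub) hC.conn hC.ne
    { mem := by
        intro p hp
        rw [Finset.mem_image] at hp
        obtain ⟨q, hq, rfl⟩ := hp
        exact hP1 q hq
      disj := by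
        intro p hp q hq hne
        rw [Finset.mem_image] at hp hq
        obtain ⟨p, hp, rfl⟩ := hp
        obtain ⟨q, hq, rfl⟩ := hq
        have hpq : p ≠ q := by rintro rfl; exact hne rfl
        obtain ⟨k1, k2, k3, k4⟩ := hP2 p hp q hq hpq
        exact ⟨fun h => k1 (Sum.inl_injective h), fun h => k2 (Sum.inl_injective h),
          fun h => k3 (Sum.inl_injective h), fun h => k4 (Sum.inl_injective h)⟩ }
  have hPimg : (P.image fun p : V × V => ((Sum.inl p.1 : VC V I), (Sum.inl p.2 : VC V I))).card =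
      P.card := by
    apply Finset.card_image_of_injective
    intro p q hpq
    have h1 := congrArg Prod.fst hpq
    have h2 := congrArg Prod.snd hpq
    exact Prod.ext (Sum.inl_injective h1) (Sum.inl_injective h2)
  have hbd := be_add_nb M' C (A s)
  have htot := (hTot _ _ _ _ M' c v₀ A Q fire T X sit.col R₁ R₂ sit.far s hs.le hHarm (by
    intro O hO
    have := hW _ _ _ _ M' hsmall.1 O ∅ (hlink O hO.sub) hO.conn hO.ne
      { mem := by intro p hp; simp at hp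
        disj := by intro p hp; simp at hp }
    simpa using this)).2.1 C hC
  -- time
  have ht1 := hTime _ _ _ _ M' A Q T X R₁ s hs.le
  have ht2 := hTime _ _ _ _ M' A Q T X R₂ s hs.le
  have h0 := hbase.2.2.2.2.2.1
  have hΦ1 := sit.Φ1 0 (Nat.zero_le _) (by rw [h0.1]; omega)
  have hΦ2 := sit.Φ2 0 (Nat.zero_le _) (by rw [h0.2]; omega)
  have hΦ1s := sit.Φ1 s hs.le
  have hΦ2s := sit.Φ2 s hs.le
  rw [← ht] at hΦ1s
  rw [← hb] at hΦ2s
  have htime1 := arith2 K h s _ _ _ y0 t tf _ ht1 hΦ1 hΦ1s htf h0.1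
  have htime2 := arith3 K s _ _ _ y1 b bf _ ht2 hΦ2 hΦ2s hbf h0.2
  rw [hPimg] at hWC
  exact arith4 K s c n _ _ _ _ _ _ _ _ y0 y1 tf bf hyy.2.2 hyy.2.1 hlarge hE hCcard hCE hn hH
    hP3 hWC hbd htot htime1 htime2

end Pool.Agent.Helper95.UB
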